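import Pool.Agent.Helper31.LD3.EV
import Pool.Agent.Helper36.LD3.EV
import Pool.Agent.Helper41.LD5.Defs

/-!
# Project LD5, block EV: the requirements hold on all large levels
-/

set_option autoImplicit false

namespace Pool.Agent.Helper30.LD5

open Set MeasureTheory Filter Topology
open Pool.Agent.Helper41.LD (av var haar DiscLe Dioph Kk)
open Pool.Agent.Helper41.LD2 (EqA)
open Pool.Agent.Helper41.LD3 (Cst Us tm fr lamG)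
open Pool.Agent.Helper41.LD4
open Pool.Agent.Helper41.LD5

variable {κ : ℕ} {τ : ℕ → ℝ} {g g' Q R CF DF Cb G K : ℕ}

/-- the test exponents, for any monotone property `P K Q₀ ε h u` of the exponent, with a large `Q₀` -/
theorem ev_test5 {c c' D₁ : ℕ} (hκ : 1 ≤ κ) (H : Cst τ g' Q R CF DF Cb G) (hg : g ≤ g') (P : ℕ → ℕ → ℝ → ℕ → ℕ → Prop)
    (hP : ∀ K Q₀ Q₀' ε h u, Q₀ ≤ Q₀' → P K Q₀ ε h u → P K Q₀' ε h u)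
    (h : ∃ (C₀ : ℕ) (D : ℝ), 0 < D ∧ ∀ᶠ K : ℕ in atTop, ∃ (Q₀ : ℕ) (ε : ℝ), (Q₀ : ℝ) + 1 ≤ Real.exp (D * (K : ℝ) ^ (2 * κ)) ∧ 0 ≤ ε ∧
      ε ≤ (1 / 2) ^ (12 * K) ∧ ∀ h < g, ∀ e < Q, ∀ u₀ : ℕ, ∃ u : ℕ, u₀ ≤ u ∧ u < u₀ + C₀ * K ∧ u % Q = e ∧ P K Q₀ ε h u) :
    ∀ᶠ K : ℕ in atTop, ∃ (Q₀ : ℕ) (ε : ℝ), 2 ^ (D₁ * K) ≤ Q₀ ∧
      ((Q₀ : ℝ) + 1) * 2 ^ (c' * K) * 2 ^ (DF + 2) ≤ (1 / 2) ^ (12 * K) * 2 ^ (K ^ (2 * κ + 1)) ∧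
      0 ≤ ε ∧ ε ≤ (1 / 2) ^ (12 * K) ∧ ∀ h < g, ∀ e < Q, ∀ ℓ : ℝ, 0 < ℓ → ℓ ≤ 1 → ∃ u : ℕ, u % Q = e ∧
      ((Q₀ : ℝ) + 1) * 2 ^ (c * K) ≤ τ h ^ u * ℓ ∧ τ h ^ u * (ℓ / 2 ^ (K ^ (2 * κ + 1))) ≤ 2 * (1 / 2) ^ (12 * K) ∧ P K Q₀ ε h u := by
  obtain ⟨C₀, D, hD, hev⟩ := h
  obtain ⟨D', hD'⟩ := pow_unbounded_of_one_lt (Real.exp D) (show (1 : ℝ) < 2 by norm_num)
  filter_upwards [hev, eventually_ge_atTop ((D' + D₁ + 1) + (c + 12) + DF * C₀ + DF), eventually_ge_atTop ((D' + D₁ + 1) + c' + DF + 2 + 12),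
    eventually_ge_atTop 1] with K hK hK2 hK3 hK1
  obtain ⟨Q₁, ε, hQ₁, hε0, hε, hmain⟩ := hK
  have eK : K ≤ K ^ (2 * κ) := Nat.le_self_pow (by omega) K
  have eK1 : 1 ≤ K ^ (2 * κ) := Nat.one_le_pow _ _ (by omega)
  -- the new denominator
  have hQ' : ((max Q₁ (2 ^ (D₁ * K)) : ℕ) : ℝ) + 1 ≤ 2 ^ ((D' + D₁ + 1) * K ^ (2 * κ)) := by
    have h1 : (Q₁ : ℝ) + 1 ≤ 2 ^ (D' * K ^ (2 * κ)) := by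
      refine hQ₁.trans ?_
      have e1 : D * (K : ℝ) ^ (2 * κ) = ((K ^ (2 * κ) : ℕ) : ℝ) * D := by push_cast; ring
      rw [e1, Real.exp_nat_mul, pow_mul (2 : ℝ) D']
      exact pow_le_pow_left₀ (Real.exp_pos _).le hD'.le _
    have h2 : ((max Q₁ (2 ^ (D₁ * K)) : ℕ) : ℝ) + 1 ≤ ((Q₁ : ℝ) + 1) * (2 * 2 ^ (D₁ * K)) := by
      have h0 : (0 : ℝ) ≤ Q₁ := Nat.cast_nonneg _
      have hp : (1 : ℝ) ≤ 2 ^ (D₁ * K) := one_le_pow₀ (by norm_num)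
      rw [Nat.cast_max, Nat.cast_pow, Nat.cast_ofNat]
      rcases max_cases (Q₁ : ℝ) ((2 : ℝ) ^ (D₁ * K)) with h | h
      · rw [h.1]; nlinarith
      · rw [h.1]; nlinarith
    calc ((max Q₁ (2 ^ (D₁ * K)) : ℕ) : ℝ) + 1 ≤ ((Q₁ : ℝ) + 1) * (2 * 2 ^ (D₁ * K)) := h2
      _ ≤ 2 ^ (D' * K ^ (2 * κ)) * (2 * 2 ^ (D₁ * K)) := mul_le_mul_of_nonneg_right h1 (by positivity)
      _ = 2 ^ (D' * K ^ (2 * κ) + (1 + D₁ * K)) := by rw [pow_add, pow_add, pow_one]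
      _ ≤ 2 ^ ((D' + D₁ + 1) * K ^ (2 * κ)) := by
        refine pow_le_pow_right₀ (by norm_num) ?_
        have : D₁ * K ≤ D₁ * K ^ (2 * κ) := Nat.mul_le_mul_left _ eK
        nlinarith
  obtain ⟨Q₀, hQ₀⟩ : ∃ Q₀ : ℕ, Q₀ = max Q₁ (2 ^ (D₁ * K)) := ⟨_, rfl⟩
  rw [← hQ₀] at hQ'
  have hp : (0 : ℝ) < 2 ^ (K ^ (2 * κ + 1)) := by positivity
  have hp' : (0 : ℝ) < 2 ^ (12 * K) := by positivity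
  refine ⟨Q₀, ε, hQ₀ ▸ le_max_right _ _, ?_, hε0, hε, fun h hh e he ℓ hℓ hℓ1 => ?_⟩
  · have hnum : (D' + D₁ + 1) * K ^ (2 * κ) + c' * K + (DF + 2) + 12 * K ≤ K ^ (2 * κ + 1) := by
      calc (D' + D₁ + 1) * K ^ (2 * κ) + c' * K + (DF + 2) + 12 * K
          = (D' + D₁ + 1) * K ^ (2 * κ) + (c' + 12) * K + (DF + 2) * 1 := by ring
        _ ≤ (D' + D₁ + 1) * K ^ (2 * κ) + (c' + 12) * K ^ (2 * κ) + (DF + 2) * K ^ (2 * κ) := by gcongr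
        _ = ((D' + D₁ + 1) + c' + DF + 2 + 12) * K ^ (2 * κ) := by ring
        _ ≤ K * K ^ (2 * κ) := Nat.mul_le_mul_right _ hK3
        _ = K ^ (2 * κ + 1) := by ring
    have e3 : (1 / 2 : ℝ) ^ (12 * K) = 1 / 2 ^ (12 * K) := by rw [one_div_pow]
    rw [e3, one_div_mul_eq_div, le_div_iff₀ hp']
    calc ((Q₀ : ℝ) + 1) * 2 ^ (c' * K) * 2 ^ (DF + 2) * 2 ^ (12 * K)
        ≤ 2 ^ ((D' + D₁ + 1) * K ^ (2 * κ)) * 2 ^ (c' * K) * 2 ^ (DF + 2) * 2 ^ (12 * K) := by gcongr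
      _ = 2 ^ ((D' + D₁ + 1) * K ^ (2 * κ) + c' * K + (DF + 2) + 12 * K) := by rw [← pow_add, ← pow_add, ← pow_add]
      _ ≤ 2 ^ (K ^ (2 * κ + 1)) := pow_le_pow_right₀ (by norm_num) hnum
  have ht : 1 < τ h := H.hτ h (by omega)
  have htD : τ h ≤ 2 ^ DF := (le_self_pow₀ ht.le (by have := H.hQ; omega)).trans (H.hDF h (by omega))
  have hX : (1 : ℝ) ≤ ((Q₀ : ℝ) + 1) * 2 ^ (c * K) := by
    refine one_le_mul_of_one_le_of_one_le ?_ (one_le_pow₀ (by norm_num))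
    have : (0 : ℝ) ≤ Q₀ := Nat.cast_nonneg _
    linarith
  obtain ⟨u₀, hu1, hu2⟩ := Pool.Agent.Helper31.LD3.first_exponent ht htD hℓ hℓ1 hX
  obtain ⟨u, h1, h2, h3, h4⟩ := hmain h hh e he u₀
  refine ⟨u, h3, hu1.trans ?_, ?_, hP K Q₁ Q₀ ε h u (hQ₀ ▸ le_max_left _ _) h4⟩
  · exact mul_le_mul_of_nonneg_right (pow_le_pow_right₀ ht.le h1) hℓ.le
  · -- the numerical inequality of the exponents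
    have hnum : (D' + D₁ + 1) * K ^ (2 * κ) + c * K + DF + DF * (C₀ * K) + 12 * K ≤ K ^ (2 * κ + 1) := by
      calc (D' + D₁ + 1) * K ^ (2 * κ) + c * K + DF + DF * (C₀ * K) + 12 * K
          = (D' + D₁ + 1) * K ^ (2 * κ) + (c + 12) * K + DF * C₀ * K + DF * 1 := by ring
        _ ≤ (D' + D₁ + 1) * K ^ (2 * κ) + (c + 12) * K ^ (2 * κ) + DF * C₀ * K ^ (2 * κ) + DF * K ^ (2 * κ) := by gcongr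
        _ = ((D' + D₁ + 1) + (c + 12) + DF * C₀ + DF) * K ^ (2 * κ) := by ring
        _ ≤ K * K ^ (2 * κ) := Nat.mul_le_mul_right _ hK2
        _ = K ^ (2 * κ + 1) := by ring
    have hu3 : τ h ^ u * ℓ ≤ 2 ^ ((D' + D₁ + 1) * K ^ (2 * κ) + c * K + DF + DF * (C₀ * K)) := by
      have e1 : τ h ^ u ≤ τ h ^ u₀ * (2 ^ DF) ^ (C₀ * K) := by
        obtain ⟨d, rfl⟩ := Nat.exists_eq_add_of_le h1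
        rw [pow_add]
        refine mul_le_mul_of_nonneg_left ?_ (pow_nonneg (by linarith) _)
        calc τ h ^ d ≤ τ h ^ (C₀ * K) := pow_le_pow_right₀ ht.le (by omega)
          _ ≤ (2 ^ DF) ^ (C₀ * K) := pow_le_pow_left₀ (by linarith) htD _
      calc τ h ^ u * ℓ ≤ (τ h ^ u₀ * (2 ^ DF) ^ (C₀ * K)) * ℓ := mul_le_mul_of_nonneg_right e1 hℓ.le
        _ = (τ h ^ u₀ * ℓ) * (2 ^ DF) ^ (C₀ * K) := by ring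
        _ ≤ (((Q₀ : ℝ) + 1) * 2 ^ (c * K) * 2 ^ DF) * (2 ^ DF) ^ (C₀ * K) := mul_le_mul_of_nonneg_right hu2 (by positivity)
        _ ≤ (2 ^ ((D' + D₁ + 1) * K ^ (2 * κ)) * 2 ^ (c * K) * 2 ^ DF) * (2 ^ DF) ^ (C₀ * K) := by gcongr
        _ = 2 ^ ((D' + D₁ + 1) * K ^ (2 * κ) + c * K + DF + DF * (C₀ * K)) := by rw [pow_add, pow_add, pow_add, pow_mul 2 DF]
    have hfin : τ h ^ u * ℓ * 2 ^ (12 * K) ≤ 2 ^ (K ^ (2 * κ + 1)) := by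
      calc τ h ^ u * ℓ * 2 ^ (12 * K) ≤ 2 ^ ((D' + D₁ + 1) * K ^ (2 * κ) + c * K + DF + DF * (C₀ * K)) * 2 ^ (12 * K) :=
            mul_le_mul_of_nonneg_right hu3 hp'.le
        _ = 2 ^ ((D' + D₁ + 1) * K ^ (2 * κ) + c * K + DF + DF * (C₀ * K) + 12 * K) := by rw [← pow_add]
        _ ≤ 2 ^ (K ^ (2 * κ + 1)) := pow_le_pow_right₀ (by norm_num) hnum
    have e2 : τ h ^ u * (ℓ / 2 ^ (K ^ (2 * κ + 1))) = τ h ^ u * ℓ / 2 ^ (K ^ (2 * κ + 1)) := by ring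
    have e3 : (1 / 2 : ℝ) ^ (12 * K) = 1 / 2 ^ (12 * K) := by rw [one_div_pow]
    rw [e2, e3, div_le_iff₀ hp]
    have e4 : τ h ^ u * ℓ ≤ 2 ^ (K ^ (2 * κ + 1)) / 2 ^ (12 * K) := by
      rw [le_div_iff₀ hp']
      exact hfin
    have e5 : (0 : ℝ) ≤ 2 ^ (K ^ (2 * κ + 1)) / 2 ^ (12 * K) := by positivity
    calc τ h ^ u * ℓ ≤ 2 ^ (K ^ (2 * κ + 1)) / 2 ^ (12 * K) := e4
      _ ≤ 2 * (2 ^ (K ^ (2 * κ + 1)) / 2 ^ (12 * K)) := by linarith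
      _ = 2 * (1 / 2 ^ (12 * K)) * 2 ^ (K ^ (2 * κ + 1)) := by ring

theorem EqA_mono {α : ℝ} {Q₀ Q₀' : ℕ} {ε : ℝ} (h : EqA α Q₀ ε) (hQ : Q₀ ≤ Q₀') : EqA α Q₀' ε :=
  fun Q hQ' x p q h0 h1 h2 => h Q (hQ.trans hQ') x p q h0 h1 h2

/-- `Q₀' = max Q₀ (2 ^ (1040 K))` (`EqA` is monotone in `Q₀`); `F.τ5 h = F.τ h`, `F.ty5 h = F.ty h` for `h < g` -/
theorem ev_big5 {F : Fam} {κ : ℕ} (hκ : 1 ≤ κ) (hF : F.Ok)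
    (h : ∃ (C₀ : ℕ) (D : ℝ), 0 < D ∧ ∀ᶠ K : ℕ in atTop, ∃ (Q₀ : ℕ) (ε : ℝ), (Q₀ : ℝ) + 1 ≤ Real.exp (D * (K : ℝ) ^ (2 * κ)) ∧ 0 ≤ ε ∧
      ε ≤ (1 / 2) ^ (12 * K) ∧ ∀ h < F.g, ∀ e < F.Q, ∀ u₀ : ℕ, ∃ u : ℕ, u₀ ≤ u ∧ u < u₀ + C₀ * K ∧ u % F.Q = e ∧
        ∀ h' < F.g, ∀ u' : ℕ, ¬ (h' = h ∧ u' ≡ u [MOD (F.ty h).1]) →
          (1 / 2 : ℝ) ^ (12 * K) < F.τ h' ^ u' / F.τ h ^ u → F.τ h' ^ u' / F.τ h ^ u < 2 ^ (12 * K) →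
          (F.τ h' ^ u' ≤ F.τ h ^ u ∧ EqA (F.τ h ^ u / F.τ h' ^ u') Q₀ ε) ∨ (F.τ h ^ u ≤ F.τ h' ^ u' ∧ EqA (F.τ h' ^ u' / F.τ h ^ u) Q₀ ε)) :
    ∀ᶠ K : ℕ in atTop, F.Big κ 1000 K := by
  have hτ5 : ∀ h < F.g, F.τ5 h = F.τ h := fun h hh => by unfold Fam.τ5; rw [if_pos hh]
  have hty5 : ∀ h < F.g, F.ty5 h = F.ty h := fun h hh => by unfold Fam.ty5; rw [if_pos hh]
  have h1 := ev_test5 (c := 24 + 12 * F.Cq) (c' := 36 + 12 * F.Cq) (D₁ := 1000 + 40) (g := F.g) hκ hF.H.base (Nat.le_succ _) (fun K Q₀ ε h u =>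
    ∀ h' < F.g, ∀ u' : ℕ, ¬ (h' = h ∧ u' ≡ u [MOD (F.ty h).1]) →
          (1 / 2 : ℝ) ^ (12 * K) < F.τ h' ^ u' / F.τ h ^ u → F.τ h' ^ u' / F.τ h ^ u < 2 ^ (12 * K) →
          (F.τ h' ^ u' ≤ F.τ h ^ u ∧ EqA (F.τ h ^ u / F.τ h' ^ u') Q₀ ε) ∨ (F.τ h ^ u ≤ F.τ h' ^ u' ∧ EqA (F.τ h' ^ u' / F.τ h ^ u) Q₀ ε))
    (fun K Q₀ Q₀' ε h u hQ hP h' hh' u' hne h2 h3 => (hP h' hh' u' hne h2 h3).imp (fun hx => ⟨hx.1, EqA_mono hx.2 hQ⟩)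
      (fun hx => ⟨hx.1, EqA_mono hx.2 hQ⟩)) h
  have h2 := Pool.Agent.Helper36.LD3.ev_num hκ F.R F.DF (F.Cb * (3 * F.m ^ 2)) F.G
  filter_upwards [h1, h2, eventually_ge_atTop (100 * F.Cx ^ 3), eventually_ge_atTop 100] with K hK1 hK2 hK3 hK4
  refine ⟨⟨hK2.1, hK2.2.1, hK2.2.2.1, hK2.2.2.2.1, hK2.2.2.2.2.1, hK2.2.2.2.2.2⟩, hK3, hK4, ?_⟩
  obtain ⟨Q₀, ε, e1, e2, e3, e4, e5⟩ := hK1
  refine ⟨Q₀, ε, e1, e2, e3, e4, fun h hh e he ℓ hℓ hℓ1 => ?_⟩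
  obtain ⟨u, k1, k2, k3, k4⟩ := e5 h hh e he ℓ hℓ hℓ1
  refine ⟨u, k1, k2, k3, fun h' hh' u' hne k5 k6 => ?_⟩
  rw [hty5 h hh] at hne
  rw [hτ5 h hh, hτ5 h' hh'] at k5 k6 ⊢
  exact k4 h' hh' u' hne k5 k6

end Pool.Agent.Helper30.LD5
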